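import Mathlib
import Pool.Agent.H26R2.Bass.Padic

set_option autoImplicit false
set_option linter.unusedSectionVars false

/-!
Idempotents come from finitely presented groups.
-/

namespace Pool.Agent.K1H5.BassRed

open MonoidAlgebra
open Pool.Agent.H23R2.Cyc (ell ell_single)
open Pool.Agent.H26R2.Bass (ind ell_class)

universe u v w x y

variable {G : Type v} [Group G]

/-- the relations between products of at most two of the elements `a i` -/
def rels2 {n : ℕ} (a : Fin n → G) : Set (FreeGroup (Fin n)) :=
  {w | ∃ i j l, a i * a j = a l ∧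
    w = FreeGroup.of i * FreeGroup.of j * (FreeGroup.of l)⁻¹} ∪
  {w | ∃ i j l m, a i * a j = a l * a m ∧
    w = FreeGroup.of i * FreeGroup.of j * (FreeGroup.of l * FreeGroup.of m)⁻¹}

lemma rels2_finite {n : ℕ} (a : Fin n → G) : (rels2 a).Finite := by
  apply Set.Finite.union
  · refine (Set.finite_range (fun q : Fin n × Fin n × Fin n =>
      FreeGroup.of q.1 * FreeGroup.of q.2.1 * (FreeGroup.of q.2.2)⁻¹)).subset ?_
    rintro w ⟨i, j, l, _, rfl⟩
    exact ⟨(i, j, l), rfl⟩
  · refine (Set.finite_range (fun q : Fin n × Fin n × Fin n × Fin n =>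
      FreeGroup.of q.1 * FreeGroup.of q.2.1 *
        (FreeGroup.of q.2.2.1 * FreeGroup.of q.2.2.2)⁻¹)).subset ?_
    rintro w ⟨i, j, l, m, _, rfl⟩
    exact ⟨(i, j, l, m), rfl⟩

lemma rels2_lift {n : ℕ} (a : Fin n → G) : ∀ r ∈ rels2 a, FreeGroup.lift a r = 1 := by
  rintro r (⟨i, j, l, h, rfl⟩ | ⟨i, j, l, m, h, rfl⟩)
  · simp [h]
  · have h1 : FreeGroup.lift a (FreeGroup.of i * FreeGroup.of j *
        (FreeGroup.of l * FreeGroup.of m)⁻¹) = a i * a j * (a l * a m)⁻¹ := by simp
    rw [h1, h, mul_inv_cancel]

/-- idempotents of group rings come from finitely presented groups -/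
theorem exists_fp {k : Type u} [Field k] (e : MonoidAlgebra k G) (he : e * e = e) (x : G)
    (hx : ell (ind k x) e ≠ 0) :
    ∃ (n : ℕ) (rels : Set (FreeGroup (Fin n))) (_ : rels.Finite) (φ : PresentedGroup rels →* G)
      (e' : MonoidAlgebra k (PresentedGroup rels)) (γ : PresentedGroup rels),
      e' * e' = e' ∧ IsConj (φ γ) x ∧ ell (ind k γ) e' ≠ 0 := by
  classical
  let T := e.coeff.support
  let a : Fin T.card → G := fun i => (T.equivFin.symm i).1
  have ha : Function.Injective a := by
    intro i j hij
    exact T.equivFin.symm.injective (Subtype.ext hij)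
  let φ : PresentedGroup (rels2 a) →* G := PresentedGroup.toGroup (rels2_lift a)
  have hφ : ∀ i, φ (PresentedGroup.of i) = a i := fun i => PresentedGroup.toGroup.of _
  let e' : MonoidAlgebra k (PresentedGroup (rels2 a)) :=
    ∑ i, single (PresentedGroup.of i) (e.coeff (a i))
  have hmap : mapDomainRingHom k φ e' = e := by
    show mapDomainRingHom k φ (∑ i, single (PresentedGroup.of i) (e.coeff (a i))) = e
    rw [map_sum]
    have h1 : ∀ i : Fin T.card, mapDomainRingHom k φ
        (single (PresentedGroup.of i) (e.coeff (a i))) = single (a i) (e.coeff (a i)) := by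
      intro i
      simp [hφ]
    rw [Finset.sum_congr rfl (fun i _ => h1 i)]
    have h2 := Equiv.sum_comp T.equivFin.symm
      (fun t : T => (single t.1 (e.coeff t.1) : MonoidAlgebra k G))
    rw [show (∑ i : Fin T.card, (single (a i) (e.coeff (a i)) : MonoidAlgebra k G)) =
      ∑ i : Fin T.card, (single (T.equivFin.symm i).1 (e.coeff (T.equivFin.symm i).1)) from rfl,
      h2, Finset.sum_coe_sort T (fun t => (single t (e.coeff t) : MonoidAlgebra k G))]
    ext g
    rw [coeff_sum, Finsupp.finsetSum_apply]
    have h3 : ∀ y ∈ T, (single y (e.coeff y) : MonoidAlgebra k G).coeff g =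
        if y = g then e.coeff y else 0 := by
      intro y _
      rw [coeff_single, Finsupp.single_apply]
    rw [Finset.sum_congr rfl h3, Finset.sum_ite_eq']
    split_ifs with h4
    · rfl
    · exact (Finsupp.notMem_support_iff.1 h4).symm
  -- the words of length at most two
  let W : Set (PresentedGroup (rels2 a)) :=
    Set.range (fun i : Fin T.card => PresentedGroup.of i) ∪
    Set.range (fun q : Fin T.card × Fin T.card => PresentedGroup.of q.1 * PresentedGroup.of q.2)
  have hinj : Set.InjOn φ W := by
    have h1 : ∀ i j l, a i * a j = a l →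
        (PresentedGroup.of i * PresentedGroup.of j : PresentedGroup (rels2 a)) =
          PresentedGroup.of l := by
      intro i j l h
      exact PresentedGroup.mk_eq_mk_of_mul_inv_mem
        (x := FreeGroup.of i * FreeGroup.of j) (y := FreeGroup.of l)
        (Or.inl ⟨i, j, l, h, rfl⟩)
    have h2 : ∀ i j l m, a i * a j = a l * a m →
        (PresentedGroup.of i * PresentedGroup.of j : PresentedGroup (rels2 a)) =
          PresentedGroup.of l * PresentedGroup.of m := by
      intro i j l m h
      exact PresentedGroup.mk_eq_mk_of_mul_inv_mem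
        (x := FreeGroup.of i * FreeGroup.of j) (y := FreeGroup.of l * FreeGroup.of m)
        (Or.inr ⟨i, j, l, m, h, rfl⟩)
    rintro _ (⟨i, rfl⟩ | ⟨⟨i, j⟩, rfl⟩) _ (⟨l, rfl⟩ | ⟨⟨l, m⟩, rfl⟩) h
    · simp only [hφ] at h
      rw [ha h]
    · simp only [map_mul, hφ] at h
      exact (h1 l m i h.symm).symm
    · simp only [map_mul, hφ] at h
      exact h1 i j l h
    · simp only [map_mul, hφ] at h
      exact h2 i j l m h
  have hs1 : (e'.coeff.support : Set (PresentedGroup (rels2 a))) ⊆ W := by
    intro γ hγ
    rw [Finset.mem_coe, Finsupp.mem_support_iff] at hγ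
    by_contra hcon
    apply hγ
    show (∑ i, single (PresentedGroup.of i) (e.coeff (a i)) :
      MonoidAlgebra k (PresentedGroup (rels2 a))).coeff γ = 0
    rw [coeff_sum, Finsupp.finsetSum_apply]
    apply Finset.sum_eq_zero
    intro i _
    rw [coeff_single, Finsupp.single_apply, if_neg]
    rintro rfl
    exact hcon (Or.inl ⟨i, rfl⟩)
  have hs2 : ((e' * e').coeff.support : Set (PresentedGroup (rels2 a))) ⊆ W := by
    intro γ hγ
    rw [Finset.mem_coe, Finsupp.mem_support_iff] at hγ
    by_contra hcon
    apply hγ
    have h1 : e' * e' = ∑ i, ∑ j, single (PresentedGroup.of i * PresentedGroup.of j)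
        (e.coeff (a i) * e.coeff (a j)) := by
      show (∑ i, single (PresentedGroup.of i) (e.coeff (a i)) :
        MonoidAlgebra k (PresentedGroup (rels2 a))) * (∑ j, single (PresentedGroup.of j)
          (e.coeff (a j))) = _
      rw [Finset.sum_mul_sum]
      apply Finset.sum_congr rfl
      intro i _
      apply Finset.sum_congr rfl
      intro j _
      rw [MonoidAlgebra.single_mul_single]
    rw [h1, coeff_sum, Finsupp.finsetSum_apply]
    apply Finset.sum_eq_zero
    intro i _
    rw [coeff_sum, Finsupp.finsetSum_apply]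
    apply Finset.sum_eq_zero
    intro j _
    rw [coeff_single, Finsupp.single_apply, if_neg]
    rintro rfl
    exact hcon (Or.inr ⟨(i, j), rfl⟩)
  have hidem : e' * e' = e' := by
    apply MonoidAlgebra.coeff_injective
    apply Finsupp.mapDomain_injOn W hinj hs2 hs1
    have h1 : mapDomainRingHom k φ (e' * e') = mapDomainRingHom k φ e' := by
      rw [map_mul, hmap, he]
    exact congrArg MonoidAlgebra.coeff h1
  -- the class functions
  let f : PresentedGroup (rels2 a) → k := fun γ => ind k x (φ γ)
  have hf : ell f e' ≠ 0 := by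
    have h1 : ∀ z : MonoidAlgebra k (PresentedGroup (rels2 a)),
        ell (ind k x) (mapDomainRingHom k φ z) = ell f z := by
      intro z
      induction z using MonoidAlgebra.induction_linear with
      | zero => simp
      | add z z' hz hz' => rw [map_add, map_add, hz, hz', map_add]
      | single γ r =>
        rw [ell_single]
        have : mapDomainRingHom k φ (single γ r) = single (φ γ) r := by simp
        rw [this, ell_single]
    rw [← h1, hmap]
    exact hx
  by_contra hcon
  push Not at hcon
  apply hf
  apply ell_class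
  · intro γ γ' hγ
    have h1 : IsConj (φ γ) (φ γ') := MonoidHom.map_isConj φ hγ
    show ind k x (φ γ) = ind k x (φ γ')
    unfold ind
    by_cases h : IsConj (φ γ) x
    · rw [if_pos h, if_pos (h1.symm.trans h)]
    · rw [if_neg h, if_neg (fun h' => h (h1.trans h'))]
  · intro γ hγ
    refine hcon _ _ (rels2_finite a) φ e' γ hidem ?_
    by_contra h
    apply hγ
    show ind k x (φ γ) = 0
    unfold ind
    rw [if_neg h]

end Pool.Agent.K1H5.BassRed
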