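import Mathlib
import Pool.Agent.H26R2.Bass.Padic
import Pool.Agent.H26R2.IdemLI.Cls
import Pool.Agent.H26R2.IdemLI.Spec

set_option autoImplicit false
set_option linter.unusedSectionVars false

/-!
Specialisation of idempotent matrices to finite fields.
-/

namespace Pool.Agent.K1H5.BassRed

open MonoidAlgebra
open Pool.Agent.H23R2.Cyc (ell tf tf_apply)
open Pool.Agent.H26R2.IdemLI (ch ch_coeff ch_injective cofs cofs_mem exists_alg exists_red)
open Pool.Agent.H26R2.Bass (ind tf_ch exists_lift)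

universe u v w x y

variable {G : Type v} [Group G] {n : ℕ}

/-- specialisation along a ring homomorphism defined on a subring -/
lemma spec {K : Type u} [Field K] {L : Type w} [Field L] (B : Subring K) (θ : B →+* L)
    (E : Matrix (Fin n) (Fin n) (MonoidAlgebra K G)) (hE : E * E = E) (g : G)
    (hg : tf (ind K g) E ≠ 0) (hB : (cofs E (tf (ind K g) E)⁻¹ : Set K) ⊆ B) :
    ∃ E' : Matrix (Fin n) (Fin n) (MonoidAlgebra L G), E' * E' = E' ∧ tf (ind L g) E' ≠ 0 := by
  obtain ⟨hinv, hcoef⟩ := cofs_mem E _ B hB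
  obtain ⟨E0, hE0, hE0E⟩ := exists_lift B.subtype Subtype.val_injective E hE
    (fun i j h => ⟨⟨_, hcoef i j h⟩, rfl⟩)
  refine ⟨E0.map (ch θ G), by rw [← Matrix.map_mul, hE0], ?_⟩
  rw [tf_ch]
  have h1 : B.subtype (tf (ind B g) E0) = tf (ind K g) E := by rw [← tf_ch, hE0E]
  intro h2
  have h3 : tf (ind B g) E0 * ⟨_, hinv⟩ = 1 := by
    apply Subtype.ext
    show B.subtype (tf (ind B g) E0) * (tf (ind K g) E)⁻¹ = 1
    rw [h1, mul_inv_cancel₀ hg]
  have h4 := congrArg θ h3
  rw [map_mul, h2, zero_mul, map_one] at h4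
  exact zero_ne_one h4

lemma card_three {F : Type u} [Field F] [Finite F] (ω : F) (hω : ω ^ 2 + ω + 1 = 0) :
    3 ≤ Nat.card F := by
  classical
  have hF : Fintype F := Fintype.ofFinite F
  rw [Nat.card_eq_fintype_card, ← Finset.card_univ]
  have h0 : ω ≠ 0 := by
    rintro rfl
    simp at hω
  by_cases h1 : ω = 1
  · -- then `3 = 0`
    subst h1
    have h3 : (3 : F) = 0 := by
      have : (1 : F) ^ 2 + 1 + 1 = 3 := by norm_num
      rw [← this]; exact hω
    have h2 : (2 : F) ≠ 0 := by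
      intro h2
      apply one_ne_zero (α := F)
      have : (1 : F) = 3 - 2 := by norm_num
      rw [this, h3, h2, sub_zero]
    have h4 : (2 : F) ≠ 1 := by
      intro h4
      apply one_ne_zero (α := F)
      have : (1 : F) = 2 - 1 := by norm_num
      rw [this, h4, sub_self]
    have h5 : ({0, 1, 2} : Finset F).card = 3 := by
      rw [Finset.card_eq_three]
      exact ⟨0, 1, 2, zero_ne_one, h2.symm, h4.symm, rfl⟩
    rw [← h5]
    exact Finset.card_le_card (Finset.subset_univ _)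
  · have h5 : ({0, 1, ω} : Finset F).card = 3 := by
      rw [Finset.card_eq_three]
      exact ⟨0, 1, ω, zero_ne_one, h0.symm, fun h => h1 h.symm, rfl⟩
    rw [← h5]
    exact Finset.card_le_card (Finset.subset_univ _)

/-- specialisation to a finite field -/
theorem to_finite {p : ℕ} [hp : Fact p.Prime] {K : Type u} [Field K] [CharP K p]
    (E : Matrix (Fin n) (Fin n) (MonoidAlgebra K G)) (hE : E * E = E) (g : G)
    (hg : tf (ind K g) E ≠ 0) :
    ∃ (F : Type u) (_ : Field F) (_ : Finite F) (_ : Algebra (ZMod p) F), 3 ≤ Nat.card F ∧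
      ∃ E' : Matrix (Fin n) (Fin n) (MonoidAlgebra F G), E' * E' = E' ∧ tf (ind F g) E' ≠ 0 := by
  classical
  let _ : Algebra (ZMod p) K := ZMod.algebra K p
  let s := cofs E (tf (ind K g) E)⁻¹
  let B := Algebra.adjoin (ZMod p) (s : Set K)
  have hft : Algebra.FiniteType (ZMod p) B := by
    rw [← Subalgebra.fg_iff_finiteType]
    exact ⟨s, rfl⟩
  obtain ⟨M, hM⟩ := Ideal.exists_maximal B
  have hft2 : Algebra.FiniteType (ZMod p) (B ⧸ M) :=
    Algebra.FiniteType.of_surjective (Ideal.Quotient.mkₐ (ZMod p) M)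
      (Ideal.Quotient.mkₐ_surjective (ZMod p) M)
  let _ : Field (B ⧸ M) := Ideal.Quotient.field M
  have hfin : Module.Finite (ZMod p) (B ⧸ M) :=
    finite_of_finite_type_of_isJacobsonRing (ZMod p) (B ⧸ M)
  have hfin2 : Finite (B ⧸ M) := Module.finite_of_finite (ZMod p)
  let f : Polynomial (B ⧸ M) := Polynomial.X ^ 2 + Polynomial.X + 1
  let F := Polynomial.SplittingField f
  let θ : B →+* F := (algebraMap (B ⧸ M) F).comp (Ideal.Quotient.mk M)
  have hFfin : Finite F := Module.finite_of_finite (B ⧸ M)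
  let _ : Algebra (ZMod p) F := ((algebraMap (B ⧸ M) F).comp (algebraMap (ZMod p) (B ⧸ M))).toAlgebra
  refine ⟨F, inferInstance, hFfin, inferInstance, ?_, ?_⟩
  · -- a root of `x ^ 2 + x + 1`
    have hdeg : f.natDegree = 2 := by
      show (Polynomial.X ^ 2 + Polynomial.X + 1 : Polynomial (B ⧸ M)).natDegree = 2
      compute_degree!
    obtain ⟨ω, hω⟩ := Polynomial.Splits.exists_eval_eq_zero (Polynomial.SplittingField.splits f) (by
      rw [Polynomial.degree_map]
      intro h
      have h1 := Polynomial.natDegree_eq_zero_iff_degree_le_zero.2 h.le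
      rw [hdeg] at h1
      exact absurd h1 (by norm_num))
    have hω2 : ω ^ 2 + ω + 1 = 0 := by
      have h1 : (f.map (algebraMap (B ⧸ M) F)) = Polynomial.X ^ 2 + Polynomial.X + 1 := by
        simp [f]
      rw [h1] at hω
      simpa using hω
    exact card_three ω hω2
  · exact spec B.toSubring θ E hE g hg (fun x hx => Algebra.subset_adjoin hx)

/-- reduction modulo almost all primes -/
theorem char_zero_red {K : Type u} [Field K] [CharZero K]
    (E : Matrix (Fin n) (Fin n) (MonoidAlgebra K G)) (hE : E * E = E) (g : G)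
    (hg : tf (ind K g) E ≠ 0) :
    ∃ m : ℕ, m ≠ 0 ∧ ∀ p : ℕ, p.Prime → ¬ p ∣ m → ∃ (k : Type u) (_ : Field k) (_ : CharP k p)
      (E' : Matrix (Fin n) (Fin n) (MonoidAlgebra k G)), E' * E' = E' ∧ tf (ind k g) E' ≠ 0 := by
  obtain ⟨L, _, _, _, B, θ, hB⟩ := exists_alg K (cofs E (tf (ind K g) E)⁻¹)
  obtain ⟨E1, hE1, hg1⟩ := spec B θ E hE g hg hB
  obtain ⟨m, hm0, hm⟩ := exists_red L (cofs E1 (tf (ind L g) E1)⁻¹)
  refine ⟨m, hm0, fun p hp hpm => ?_⟩
  obtain ⟨k, _, _, B', θ', hB'⟩ := hm p hp hpm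
  obtain ⟨E2, hE2, hg2⟩ := spec B' θ' E1 hE1 g hg1 hB'
  exact ⟨k, inferInstance, inferInstance, E2, hE2, hg2⟩

end Pool.Agent.K1H5.BassRed
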