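import Mathlib
import Pool.Agent.H26R2.Bass.Padic

set_option autoImplicit false

/-!
From idempotent matrices over `F[G]` to idempotents in `k[S × G]`, for a finite group `S` whose
order is invertible in `k` and a surjection `k[S] → M_Q(F)`.
-/

namespace Pool.Agent.K1H5.BassRed

open MonoidAlgebra
open Pool.Agent.H23R2.Cyc (ell ell_single ell_mul_comm ell_eq_sum tf tf_apply tf_io io io_mul io_one
  cm eq_sum_io msupp)
open Pool.Agent.H26R2.IdemLI (ch ch_coeff ch_injective)
open Pool.Agent.H26R2.Bass (ind ind_comm ell_class ell_ch tf_ch)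

universe u v w x y

set_option linter.unusedSectionVars false
set_option linter.unusedSimpArgs false

section slice

variable {k : Type u} [Field k] {S : Type x} [Group S] {G : Type y} [Group G]

variable (k S) in
open Classical in
/-- the slice at `h` -/
noncomputable def slice (h : G) : MonoidAlgebra k (S × G) →+ MonoidAlgebra k S :=
  MonoidAlgebra.liftNC (MonoidAlgebra.singleAddHom (1 : S))
    (fun x : S × G => if x.2 = h then MonoidAlgebra.single x.1 (1 : k) else 0)

open Classical in
lemma slice_single (h : G) (x : S × G) (r : k) :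
    slice k S h (single x r) = if x.2 = h then single x.1 r else 0 := by
  unfold slice
  rw [MonoidAlgebra.liftNC_single]
  split_ifs
  · simp [MonoidAlgebra.single_mul_single]
  · simp

/-- the embedding of `k[S]` -/
noncomputable def io1 (k : Type u) [Field k] (S : Type x) [Group S] (G : Type y) [Group G] :
    MonoidAlgebra k S →+* MonoidAlgebra k (S × G) :=
  MonoidAlgebra.mapDomainRingHom k (MonoidHom.inl S G)

lemma io1_single (s : S) (r : k) : io1 k S G (single s r) = single (s, 1) r := by
  unfold io1
  simp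

lemma slice_mul (h : G) (x : MonoidAlgebra k (S × G)) (z : MonoidAlgebra k S) :
    slice k S h (x * io1 k S G z) = slice k S h x * z := by
  classical
  induction x using MonoidAlgebra.induction_linear with
  | zero => simp
  | add x x' h1 h2 => rw [add_mul, map_add, map_add, h1, h2, add_mul]
  | single g r =>
    induction z using MonoidAlgebra.induction_linear with
    | zero => simp
    | add z z' h1 h2 => rw [map_add, mul_add, map_add, h1, h2, mul_add]
    | single s c =>
      rw [io1_single, MonoidAlgebra.single_mul_single, slice_single, slice_single]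
      simp only [Prod.snd_mul, mul_one, Prod.fst_mul]
      split_ifs
      · rw [MonoidAlgebra.single_mul_single]
      · rw [zero_mul]

lemma slice_coeff (h : G) (x : MonoidAlgebra k (S × G)) (s : S) :
    (slice k S h x).coeff s = x.coeff (s, h) := by
  classical
  induction x using MonoidAlgebra.induction_linear with
  | zero => simp
  | add x x' h1 h2 => simp [h1, h2]
  | single g r =>
    rw [slice_single, coeff_single, Finsupp.single_apply]
    by_cases h1 : g.2 = h
    · rw [if_pos h1, coeff_single, Finsupp.single_apply]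
      by_cases h2 : g.1 = s
      · rw [if_pos h2, if_pos (Prod.ext h2 h1)]
      · rw [if_neg h2, if_neg (fun h3 => h2 (congrArg Prod.fst h3))]
    · rw [if_neg h1, if_neg (fun h3 => h1 (congrArg Prod.snd h3))]
      rfl

lemma eq_zero_of_slice (x : MonoidAlgebra k (S × G)) (h : ∀ g : G, slice k S g x = 0) : x = 0 := by
  ext g
  obtain ⟨s, g⟩ := g
  rw [← slice_coeff, h g]
  rfl

end slice

section

variable {k : Type u} [Field k] {F : Type v} [Field F] [Algebra k F]
variable {Q : Type w} [Fintype Q] [DecidableEq Q] {S : Type x} [Group S] {G : Type y} [Group G]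

variable (k) in
/-- the representation on matrices -/
noncomputable def rp (ρ : S →* Matrix Q Q F) : MonoidAlgebra k S →ₐ[k] Matrix Q Q F :=
  MonoidAlgebra.lift k (Matrix Q Q F) S ρ

/-- the induced map on the product -/
noncomputable def mh (G : Type y) [Group G] (ρ : S →* Matrix Q Q F) :
    S × G →* Matrix Q Q (MonoidAlgebra F G) where
  toFun x := io (ρ x.1) x.2
  map_one' := by
    show io (ρ 1) 1 = 1
    rw [map_one, io_one]
  map_mul' x y := by
    rw [io_mul, ← map_mul]
    rfl

variable (k) in
/-- the induced map on the group ring of the product -/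
noncomputable def Pg (G : Type y) [Group G] (ρ : S →* Matrix Q Q F) :
    MonoidAlgebra k (S × G) →ₐ[k] Matrix Q Q (MonoidAlgebra F G) :=
  MonoidAlgebra.lift k (Matrix Q Q (MonoidAlgebra F G)) (S × G) (mh G ρ)

lemma rp_single (ρ : S →* Matrix Q Q F) (s : S) (r : k) : rp k ρ (single s r) = r • ρ s := by
  unfold rp
  rw [MonoidAlgebra.lift_single]

lemma smul_io (A : Matrix Q Q F) (g : G) (r : k) : r • io A g = io (r • A) g := by
  ext1 i j
  simp [io, Matrix.map_apply, MonoidAlgebra.smul_single]

lemma io_add (A B : Matrix Q Q F) (g : G) : io (A + B) g = io A g + io B g := by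
  ext1 i j
  simp [io, Matrix.map_apply, MonoidAlgebra.single_add]

lemma io_zero (g : G) : io (0 : Matrix Q Q F) g = 0 := by
  ext1 i j
  simp [io, Matrix.map_apply]

lemma Pg_single (ρ : S →* Matrix Q Q F) (x : S × G) (r : k) :
    Pg k G ρ (single x r) = io (r • ρ x.1) x.2 := by
  unfold Pg
  rw [MonoidAlgebra.lift_single, ← smul_io]
  rfl

lemma Pg_io1 (ρ : S →* Matrix Q Q F) (z : MonoidAlgebra k S) :
    Pg k G ρ (io1 k S G z) = io (rp k ρ z) 1 := by
  induction z using MonoidAlgebra.induction_linear with
  | zero => rw [map_zero, map_zero, map_zero, io_zero]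
  | add z z' h1 h2 => rw [map_add, map_add, h1, h2, map_add, io_add]
  | single s r => rw [io1_single, Pg_single, rp_single]

lemma cm_Pg (ρ : S →* Matrix Q Q F) (x : MonoidAlgebra k (S × G)) (h : G) :
    cm (Pg k G ρ x) h = rp k ρ (slice k S h x) := by
  classical
  induction x using MonoidAlgebra.induction_linear with
  | zero => rw [map_zero, map_zero, map_zero]; rfl
  | add x x' h1 h2 =>
    rw [map_add, map_add, map_add, ← h1, ← h2]
    ext1 i j
    simp [cm]
  | single g r =>
    rw [Pg_single, slice_single]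
    ext1 i j
    by_cases h1 : g.2 = h
    · rw [if_pos h1, rp_single]
      simp [cm, io, Finsupp.single_apply, h1]
    · rw [if_neg h1, map_zero]
      simp [cm, io, Finsupp.single_apply, h1]

lemma Pg_mul_eq_zero (ρ : S →* Matrix Q Q F) (z : MonoidAlgebra k S)
    (hz : ∀ x : MonoidAlgebra k S, rp k ρ x = 0 → x * z = 0) (x : MonoidAlgebra k (S × G))
    (hx : Pg k G ρ x = 0) : x * io1 k S G z = 0 := by
  apply eq_zero_of_slice
  intro h
  rw [slice_mul]
  apply hz
  rw [← cm_Pg, hx]
  rfl

lemma Pg_surjective (ρ : S →* Matrix Q Q F) (hρ : Function.Surjective (rp k ρ)) :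
    Function.Surjective (Pg k G ρ) := by
  classical
  intro X
  choose f hf using hρ
  refine ⟨∑ s : {g // g ∈ msupp X}, io1 k S G (f (cm X s.1)) * single ((1 : S), s.1) 1, ?_⟩
  rw [map_sum]
  conv_rhs => rw [eq_sum_io X]
  apply Finset.sum_congr rfl
  intro s _
  rw [map_mul, Pg_io1, hf, Pg_single]
  simp only [one_smul, map_one]
  rw [io_mul, mul_one, one_mul]

/-- Maschke's theorem -/
lemma exists_z [Finite S] [NeZero (Nat.card S : k)] (ρ : S →* Matrix Q Q F) :
    ∃ z : MonoidAlgebra k S, rp k ρ z = 1 ∧ ∀ x : MonoidAlgebra k S, rp k ρ x = 0 → x * z = 0 := by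
  let K : Submodule (MonoidAlgebra k S) (MonoidAlgebra k S) := RingHom.ker (rp k ρ)
  obtain ⟨L, hL⟩ := MonoidAlgebra.Submodule.exists_isCompl K
  have h1 : (1 : MonoidAlgebra k S) ∈ K ⊔ L := by
    rw [hL.sup_eq_top]
    exact Submodule.mem_top
  obtain ⟨y, hy, z, hz, hyz⟩ := Submodule.mem_sup.1 h1
  have hy' : rp k ρ y = 0 := hy
  refine ⟨z, ?_, fun x hx => ?_⟩
  · have h2 : rp k ρ z = rp k ρ (y + z) := by rw [map_add, hy', zero_add]
    rw [h2, hyz, map_one]
  · have h2 : x * z ∈ K := by
      show rp k ρ (x * z) = 0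
      rw [map_mul, hx, zero_mul]
    have h3 : x * z ∈ L := L.smul_mem x hz
    have h4 : x * z ∈ K ⊓ L := ⟨h2, h3⟩
    rw [hL.inf_eq_bot] at h4
    exact h4

/-- idempotent matrices lift to idempotents of the group ring of the product -/
theorem exists_idem [Finite S] [NeZero (Nat.card S : k)] (ρ : S →* Matrix Q Q F)
    (hρ : Function.Surjective (rp k ρ)) (X : Matrix Q Q (MonoidAlgebra F G)) (hX : X * X = X) :
    ∃ e : MonoidAlgebra k (S × G), e * e = e ∧ Pg k G ρ e = X := by
  obtain ⟨z, hz1, hz2⟩ := exists_z (k := k) ρ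
  obtain ⟨y, hy⟩ := Pg_surjective (k := k) (G := G) ρ hρ X
  have hPz : Pg k G ρ (io1 k S G z) = 1 := by rw [Pg_io1, hz1, io_one]
  refine ⟨y * io1 k S G z, ?_, by rw [map_mul, hPz, mul_one, hy]⟩
  have h1 : Pg k G ρ (y * io1 k S G z * y - y) = 0 := by
    rw [map_sub, map_mul, map_mul, hPz, mul_one, hy, hX, sub_self]
  have h2 := Pg_mul_eq_zero ρ z hz2 _ h1
  rw [sub_mul, sub_eq_zero] at h2
  rw [← mul_assoc]
  exact h2

/-- the class function on the product -/
noncomputable def cf (ρ : S →* Matrix Q Q F) (g : G) (x : S × G) : F :=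
  (ρ x.1).trace * ind F g x.2

lemma tf_add_io (g : G) (A : Matrix Q Q F) (h : G) :
    tf (ind F g) (io A h) = A.trace * ind F g h := tf_io _ _ _

theorem tf_Pg (ρ : S →* Matrix Q Q F) (g : G) (e : MonoidAlgebra k (S × G)) :
    tf (ind F g) (Pg k G ρ e) = ell (cf ρ g) (ch (algebraMap k F) (S × G) e) := by
  classical
  induction e using MonoidAlgebra.induction_linear with
  | zero => simp
  | add x x' h1 h2 => rw [map_add, map_add, h1, h2, map_add, map_add]
  | single x r =>
    have h1 : ch (algebraMap k F) (S × G) (single x r) = single x (algebraMap k F r) := by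
      ext y
      rw [ch_coeff, coeff_single, coeff_single, Finsupp.single_apply, Finsupp.single_apply]
      split_ifs
      · rfl
      · exact map_zero _
    rw [Pg_single, tf_io, h1, ell_single]
    unfold cf
    rw [Matrix.trace_smul, Algebra.smul_def, mul_assoc]

lemma cf_class (ρ : S →* Matrix Q Q F) (g : G) (a b : S × G) (hab : IsConj a b) :
    cf ρ g a = cf ρ g b := by
  have h1 : IsConj a.1 b.1 := MonoidHom.map_isConj (MonoidHom.fst S G) hab
  have h2 : IsConj a.2 b.2 := MonoidHom.map_isConj (MonoidHom.snd S G) hab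
  unfold cf
  congr 1
  · obtain ⟨c, hc⟩ := isConj_iff.1 h1
    rw [← hc, map_mul, map_mul, Matrix.trace_mul_comm, ← mul_assoc, ← map_mul, inv_mul_cancel,
      map_one, one_mul]
  · unfold ind
    by_cases h3 : IsConj a.2 g
    · rw [if_pos h3, if_pos (h2.symm.trans h3)]
    · rw [if_neg h3, if_neg (fun h4 => h3 (h2.trans h4))]

/-- from idempotent matrices over `F[G]` to idempotents of `k[S × G]` -/
theorem exists_elem [Finite S] [NeZero (Nat.card S : k)] (ρ : S →* Matrix Q Q F)
    (hρ : Function.Surjective (rp k ρ)) (X : Matrix Q Q (MonoidAlgebra F G)) (hX : X * X = X)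
    (g : G) (hg : tf (ind F g) X ≠ 0) :
    ∃ (e : MonoidAlgebra k (S × G)) (s : S) (h : G), e * e = e ∧ IsConj h g ∧
      ell (ind k (s, h)) e ≠ 0 := by
  obtain ⟨e, he, heX⟩ := exists_idem (k := k) ρ hρ X hX
  rw [← heX, tf_Pg] at hg
  by_contra hcon
  push Not at hcon
  apply hg
  apply ell_class _ (cf_class ρ g)
  rintro ⟨s, h⟩ hne
  have hh : IsConj h g := by
    by_contra h1
    apply hne
    unfold cf ind
    rw [if_neg h1, mul_zero]
  rw [ell_ch, hcon e s h he hh, map_zero]

end

end Pool.Agent.K1H5.BassRed
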