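import Mathlib
import Pool.Agent.K1H5.BassRed.Mat

set_option autoImplicit false
set_option linter.unusedSectionVars false

/-!
The monomial group `Fˣ ≀ Q` and its representation.
-/

namespace Pool.Agent.K1H5.BassRed

open MonoidAlgebra
open Pool.Agent.H23R2.Cyc (ell ell_single ell_mul_comm ell_eq_sum tf tf_apply tf_io io io_mul io_one
  cm eq_sum_io msupp)
open Pool.Agent.H26R2.IdemLI (ch ch_coeff ch_injective)
open Pool.Agent.H26R2.Bass (ind ind_comm ell_class ell_ch tf_ch)

universe u v w x y

section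

variable {k : Type u} [Field k] {F : Type v} [Field F] [Algebra k F]
variable {Q : Type w} [Group Q] [Fintype Q] [DecidableEq Q]

variable (F Q) in
/-- monomial matrices -/
def mono : (Fˣ ≀ᵣ Q) →* Matrix Q Q F where
  toFun a := Matrix.of fun i j => if j = a.right⁻¹ * i then (a.left i : F) else 0
  map_one' := by
    ext1 i j
    simp only [Matrix.of_apply, RegularWreathProduct.one_right, RegularWreathProduct.one_left,
      inv_one, one_mul, Pi.one_apply, Units.val_one, Matrix.one_apply]
    by_cases h : i = j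
    · rw [if_pos h.symm, if_pos h]
    · rw [if_neg (fun h' => h h'.symm), if_neg h]
  map_mul' a b := by
    ext1 i j
    rw [Matrix.mul_apply]
    simp only [Matrix.of_apply, RegularWreathProduct.mul_right, RegularWreathProduct.mul_left,
      Pi.mul_apply, Units.val_mul]
    rw [Finset.sum_eq_single (a.right⁻¹ * i)]
    · rw [if_pos rfl, mul_inv_rev, mul_assoc]
      split_ifs
      · rfl
      · rw [mul_zero]
    · intro l _ hl
      rw [if_neg hl, zero_mul]
    · intro h
      exact absurd (Finset.mem_univ _) h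

lemma mono_apply (a : Fˣ ≀ᵣ Q) (i j : Q) :
    mono F Q a i j = if j = a.right⁻¹ * i then (a.left i : F) else 0 := rfl

lemma exists_units (h3 : 3 ≤ Nat.card F) [Finite F] (c : F) : ∃ u v : Fˣ, (u : F) - v = c := by
  classical
  have hF : Fintype F := Fintype.ofFinite F
  rw [Nat.card_eq_fintype_card] at h3
  obtain ⟨v, hv⟩ : ∃ v : F, v ∉ ({0, -c} : Finset F) := by
    by_contra hcon
    push Not at hcon
    have h1 : (Finset.univ : Finset F) ⊆ {0, -c} := fun x _ => hcon x
    have h2 := Finset.card_le_card h1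
    have h4 : ({0, -c} : Finset F).card ≤ 2 := Finset.card_le_two
    rw [Finset.card_univ] at h2
    omega
  rw [Finset.mem_insert, Finset.mem_singleton, not_or] at hv
  have hu : v + c ≠ 0 := fun h => hv.2 (eq_neg_of_add_eq_zero_left h)
  exact ⟨Units.mk0 _ hu, Units.mk0 _ hv.1, by simp⟩

theorem rp_mono_surjective [Finite F] (h3 : 3 ≤ Nat.card F) :
    Function.Surjective (rp k (mono F Q)) := by
  classical
  intro M
  have key : ∀ (i j : Q) (c : F), ∃ y, rp k (mono F Q) y = Matrix.single i j c := by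
    intro i j c
    obtain ⟨u, v, huv⟩ := exists_units h3 c
    refine ⟨single (⟨Function.update 1 i u, i * j⁻¹⟩ : Fˣ ≀ᵣ Q) 1 -
      single (⟨Function.update 1 i v, i * j⁻¹⟩ : Fˣ ≀ᵣ Q) 1, ?_⟩
    rw [map_sub, rp_single, rp_single, one_smul, one_smul]
    ext1 a b
    rw [Matrix.sub_apply, mono_apply, mono_apply, Matrix.single_apply]
    by_cases ha : a = i
    · subst ha
      have h1 : (a * j⁻¹)⁻¹ * a = j := by group
      simp only [h1, Function.update_self, true_and]
      by_cases hb : b = j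
      · rw [if_pos hb, if_pos hb, if_pos hb.symm, huv]
      · rw [if_neg hb, if_neg hb, if_neg (fun h => hb h.symm), sub_zero]
    · have hne : ¬ (i = a ∧ j = b) := fun h => ha h.1.symm
      rw [if_neg hne]
      simp only [Function.update_of_ne ha, sub_self]
  choose f hf using key
  refine ⟨∑ i : Q, ∑ j : Q, f i j (M i j), ?_⟩
  rw [map_sum]
  conv_rhs => rw [Matrix.matrix_eq_sum_single M]
  apply Finset.sum_congr rfl
  intro i _
  rw [map_sum]
  apply Finset.sum_congr rfl
  intro j _
  exact hf i j _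

/-- the order of the group of monomial matrices is prime to the characteristic -/
theorem card_mono (p : ℕ) [hp : Fact p.Prime] [CharP F p] [Finite F] (hQ : ¬ p ∣ Nat.card Q) :
    ¬ p ∣ Nat.card (Fˣ ≀ᵣ Q) := by
  classical
  rw [RegularWreathProduct.card]
  intro h
  rcases (Nat.Prime.dvd_mul hp.out).1 h with h1 | h1
  · have h2 := hp.out.dvd_of_dvd_pow h1
    obtain ⟨u, hu⟩ := exists_prime_orderOf_dvd_card' p h2
    have h3 : (u : F) ^ p = 1 := by
      rw [← Units.val_pow_eq_pow_val, ← hu, pow_orderOf_eq_one, Units.val_one]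
    have h4 : ((u : F) - 1) ^ p = 0 := by
      rw [sub_pow_char, h3, one_pow, sub_self]
    have h5 : (u : F) = 1 := sub_eq_zero.1 (pow_eq_zero_iff hp.out.ne_zero |>.1 h4)
    have h6 : u = 1 := Units.ext h5
    rw [h6, orderOf_one] at hu
    exact hp.out.one_lt.ne hu
  · exact hQ h1

end

/-- enlarging matrices -/
theorem enlarge {R : Type u} [CommRing R] {G : Type v} [Group G] {n m : ℕ} {Q : Type w}
    [Fintype Q] [DecidableEq Q] (ε : Q ≃ Fin n ⊕ Fin m)
    (A : Matrix (Fin n) (Fin n) (MonoidAlgebra R G)) (hA : A * A = A) (f : G → R) :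
    ∃ X : Matrix Q Q (MonoidAlgebra R G), X * X = X ∧ tf f X = tf f A := by
  refine ⟨(Matrix.fromBlocks A 0 0 (0 : Matrix (Fin m) (Fin m) (MonoidAlgebra R G))).submatrix ε ε,
    ?_, ?_⟩
  · rw [Matrix.submatrix_mul_equiv, Matrix.fromBlocks_multiply]
    simp [hA]
  · rw [tf_apply, tf_apply]
    have h1 := Equiv.sum_comp ε (fun x => ell f
      ((Matrix.fromBlocks A 0 0 (0 : Matrix (Fin m) (Fin m) (MonoidAlgebra R G))) x x))
    rw [Fintype.sum_sum_type] at h1
    simp only [Matrix.fromBlocks_apply₁₁, Matrix.fromBlocks_apply₂₂, Matrix.zero_apply,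
      map_zero, Finset.sum_const_zero, add_zero] at h1
    rw [← h1]
    rfl

/-- from idempotent matrices over `F[G]` for a finite field `F` to idempotents over the prime
field -/
theorem exists_prime_field {p : ℕ} [hp : Fact p.Prime] {F : Type v} [Field F] [Finite F]
    [Algebra (ZMod p) F] (h3 : 3 ≤ Nat.card F) {G : Type y} [Group G] {n : ℕ}
    (A : Matrix (Fin n) (Fin n) (MonoidAlgebra F G)) (hA : A * A = A) (g : G)
    (hg : tf (ind F g) A ≠ 0) :
    ∃ (S : Type v) (_ : Group S) (_ : Finite S) (_ : ¬ p ∣ Nat.card S)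
      (e : MonoidAlgebra (ZMod p) (S × G)) (s : S) (h : G), e * e = e ∧ IsConj h g ∧
      ell (ind (ZMod p) (s, h)) e ≠ 0 := by
  classical
  have hchar : CharP F p := by
    exact charP_of_injective_algebraMap (algebraMap (ZMod p) F).injective p
  obtain ⟨m, hm⟩ : ∃ m : ℕ, ¬ p ∣ n + m + 1 := by
    by_cases h : p ∣ n + 0 + 1
    · refine ⟨1, fun h' => ?_⟩
      have h1 := (Nat.dvd_sub h' h)
      have h2 : n + 1 + 1 - (n + 0 + 1) = 1 := by omega
      rw [h2] at h1
      exact hp.out.one_lt.ne' (Nat.dvd_one.1 h1)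
    · exact ⟨0, h⟩
  have hcard : Nat.card (Multiplicative (ZMod (n + m + 1))) = n + m + 1 := by
    rw [Nat.card_congr (Multiplicative.toAdd)]
    exact Nat.card_zmod _
  let ε : Multiplicative (ZMod (n + m + 1)) ≃ Fin n ⊕ Fin (m + 1) :=
    (Multiplicative.toAdd).trans ((ZMod.finEquiv (n + m + 1)).symm.toEquiv.trans
      ((finCongr (by omega)).trans finSumFinEquiv.symm))
  obtain ⟨X, hX, hXt⟩ := enlarge ε A hA (ind F g)
  have hQ : ¬ p ∣ Nat.card (Multiplicative (ZMod (n + m + 1))) := by rwa [hcard]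
  have hS := card_mono (F := F) p hQ
  have hne : NeZero (Nat.card (Fˣ ≀ᵣ Multiplicative (ZMod (n + m + 1))) : ZMod p) :=
    ⟨fun h => hS ((ZMod.natCast_eq_zero_iff _ _).1 h)⟩
  obtain ⟨e, s, h, h1, h2, h4⟩ := exists_elem (k := ZMod p)
    (mono F (Multiplicative (ZMod (n + m + 1)))) (rp_mono_surjective h3) X hX g (by rwa [hXt])
  exact ⟨_, inferInstance, inferInstance, hS, e, s, h, h1, h2, h4⟩

end Pool.Agent.K1H5.BassRed
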